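import Pool.Agent.J4H62.PF.Jobs

/-!
# Project PF, job I: evaluation of `psi` on the atomic type of a tuple
-/

set_option autoImplicit false

namespace Pool.Agent.J4H52.PF

open Pool.Agent.J4H62.PF

theorem mem_Qs {N : ℕ} {b : Bool} {i j : ℕ} : (b, i, j) ∈ Qs N ↔ i < N ∧ j < N := by
  unfold Qs
  simp only [List.mem_flatMap, List.mem_map, List.mem_range, Prod.mk.injEq]
  constructor
  · rintro ⟨b', _, i', hi', j', hj', _, h2, h3⟩
    subst h2 h3
    exact ⟨hi', hj'⟩
  · rintro ⟨h1, h2⟩
    exact ⟨b, by cases b <;> simp, i, h1, j, h2, rfl, rfl, rfl⟩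

theorem look_atp (adj : ℕ → ℕ → Bool) {Q : List Qu} (z : ℕ → ℕ) {q : Qu} (hq : q ∈ Q) :
    look Q (atp adj Q z) q = ev adj z q := by
  unfold look atp
  rw [Bool.eq_iff_iff, List.any_eq_true]
  constructor
  · rintro ⟨t, ht, h⟩
    rw [Bool.and_eq_true, decide_eq_true_eq] at h
    obtain ⟨h1, h2⟩ := h
    have h3 : t.2 = ev adj z t.1 := by
      clear h1 h2 hq
      induction Q with
      | nil => simp at ht
      | cons x Q ih =>
        rw [List.map_cons, List.zip_cons_cons, List.mem_cons] at ht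
        rcases ht with rfl | ht
        · rfl
        · exact ih ht
    rw [← h1, ← h3, h2]
  · intro h
    refine ⟨(q, ev adj z q), ?_, by simp [h]⟩
    clear h
    induction Q with
    | nil => simp at hq
    | cons x Q ih =>
      rw [List.map_cons, List.zip_cons_cons, List.mem_cons]
      rcases List.mem_cons.1 hq with rfl | hq
      · left; rfl
      · right; exact ih hq

theorem look_eq (adj : ℕ → ℕ → Bool) {N : ℕ} (z : ℕ → ℕ) {i j : ℕ} (hi : i < N) (hj : j < N) :
    look (Qs N) (atp adj (Qs N) z) (false, i, j) = decide (z i = z j) := by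
  rw [look_atp adj z (mem_Qs.2 ⟨hi, hj⟩)]
  rfl

theorem look_adj (adj : ℕ → ℕ → Bool) {N : ℕ} (z : ℕ → ℕ) {i j : ℕ} (hi : i < N) (hj : j < N) :
    look (Qs N) (atp adj (Qs N) z) (true, i, j) = adj (z i) (z j) := by
  rw [look_atp adj z (mem_Qs.2 ⟨hi, hj⟩)]
  rfl

/-- the invariant of the loop -/
def Inv (N : ℕ) (z : ℕ → ℕ) (lab : List ℕ) (π : ℕ → ℕ) : Prop :=
  lab.length = N ∧ ∀ i < N, lab.getD i 0 < N ∧ z (lab.getD i 0) = π (z i)

theorem inv_foldl (adj : ℕ → ℕ → Bool) (N : ℕ) (z : ℕ → ℕ) :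
    ∀ (F : List (ℕ × ℕ)) (lab : List ℕ) (π : ℕ → ℕ), (∀ e ∈ F, e.1 < N ∧ e.2 < N) →
    Inv N z lab π →
    Inv N z (F.foldl (fun lab e => lab.map fun l =>
      bif look (Qs N) (atp adj (Qs N) z) (false, l, lab.getD e.2 0) then
        lab.getD e.1 0 else l) lab)
      ((F.map fun e => (z e.1, z e.2)).foldl
        (fun π e a => if π a = π e.2 then π e.1 else π a) π) := by
  intro F
  induction F with
  | nil => intro lab π _ h; exact h
  | cons e F ih =>
    intro lab π hF h
    rw [List.foldl_cons, List.map_cons, List.foldl_cons]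
    apply ih _ _ fun e' he' => hF e' (List.mem_cons_of_mem _ he')
    obtain ⟨he1, he2⟩ := hF e (by simp)
    refine ⟨by rw [List.length_map]; exact h.1, fun i hi => ?_⟩
    have hi' : i < lab.length := by rw [h.1]; exact hi
    have e1 : (lab.map fun l => bif look (Qs N) (atp adj (Qs N) z) (false, l, lab.getD e.2 0) then
        lab.getD e.1 0 else l).getD i 0 =
        bif look (Qs N) (atp adj (Qs N) z) (false, lab.getD i 0, lab.getD e.2 0) then
        lab.getD e.1 0 else lab.getD i 0 := by
      simp only [List.getD_eq_getElem?_getD, List.getElem?_map, List.getElem?_eq_getElem hi',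
        Option.map_some, Option.getD_some]
    rw [e1, look_eq adj z (h.2 i hi).1 (h.2 e.2 he2).1, (h.2 i hi).2, (h.2 e.2 he2).2]
    by_cases hc : π (z i) = π (z e.2)
    · simp only [hc, decide_true, cond_true, if_true]
      exact h.2 e.1 he1
    · simp only [hc, decide_false, cond_false, if_false]
      exact h.2 i hi

theorem inv_labs (adj : ℕ → ℕ → Bool) (N : ℕ) (F : List (ℕ × ℕ)) (z : ℕ → ℕ)
    (hF : ∀ e ∈ F, e.1 < N ∧ e.2 < N) :
    Inv N z (labs (Qs N) (atp adj (Qs N) z) (List.range N) F)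
      (coll (F.map fun e => (z e.1, z e.2))) := by
  unfold labs coll
  apply inv_foldl adj N z F _ _ hF
  refine ⟨List.length_range, fun i hi => ?_⟩
  have : (List.range N).getD i 0 = i := by
    rw [List.getD_eq_getElem _ _ (by simpa using hi), List.getElem_range]
  rw [this]
  exact ⟨hi, rfl⟩

theorem all_iff {N : ℕ} {lab : List ℕ} (h : lab.length = N) (p : ℕ → Bool) :
    lab.all p = true ↔ ∀ i < N, p (lab.getD i 0) = true := by
  rw [List.all_eq_true]
  constructor
  · intro hp i hi
    apply hp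
    rw [List.getD_eq_getElem _ _ (by omega)]
    exact List.getElem_mem _
  · intro hp x hx
    obtain ⟨i, hi, rfl⟩ := List.getElem_of_mem hx
    have := hp i (by omega)
    rwa [List.getD_eq_getElem _ _ hi] at this

theorem qadjI_iff (adj : ℕ → ℕ → Bool) {N : ℕ} {z : ℕ → ℕ} {lab : List ℕ} {π : ℕ → ℕ}
    (h : Inv N z lab π) {i j : ℕ} (hi : i < N) (hj : j < N) :
    qadjI (Qs N) (atp adj (Qs N) z) lab (List.range N) (lab.getD i 0) (lab.getD j 0) = true ↔
      qadjZ adj N z π (z i) (z j) := by
  unfold qadjI qadjZ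
  rw [look_eq adj z (h.2 i hi).1 (h.2 j hj).1, (h.2 i hi).2, (h.2 j hj).2]
  simp only [Bool.and_eq_true, Bool.not_eq_true', decide_eq_false_iff_not, List.any_eq_true,
    List.mem_range]
  refine and_congr_right fun _ => exists_congr fun a' => ?_
  constructor
  · rintro ⟨ha', b', hb', h1, h2, h3⟩
    rw [look_eq adj z (h.2 a' ha').1 (h.2 i hi).1, decide_eq_true_eq, (h.2 i hi).2,
      (h.2 a' ha').2] at h1
    rw [look_eq adj z (h.2 b' hb').1 (h.2 j hj).1, decide_eq_true_eq, (h.2 j hj).2,
      (h.2 b' hb').2] at h2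
    rw [look_adj adj z ha' hb'] at h3
    exact ⟨ha', b', hb', h1, h2, h3⟩
  · rintro ⟨ha', b', hb', h1, h2, h3⟩
    refine ⟨ha', b', hb', ?_, ?_, ?_⟩
    · rw [look_eq adj z (h.2 a' ha').1 (h.2 i hi).1, decide_eq_true_eq, (h.2 i hi).2,
        (h.2 a' ha').2]
      exact h1
    · rw [look_eq adj z (h.2 b' hb').1 (h.2 j hj).1, decide_eq_true_eq, (h.2 j hj).2,
        (h.2 b' hb').2]
      exact h2
    · rw [look_adj adj z ha' hb']
      exact h3

theorem t_I : S_I := by
  intro adj N F z hF
  have hinv := inv_labs adj N F z hF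
  set π := coll (F.map fun e => (z e.1, z e.2)) with hπ
  unfold psi
  rw [Bool.and_eq_true]
  refine and_congr ?_ ?_
  · rw [List.all_eq_true]
    refine forall_congr' fun e => forall_congr' fun he => ?_
    obtain ⟨h1, h2⟩ := hF e he
    rw [look_adj adj z h1 h2, look_eq adj z h1 h2, Bool.or_eq_true, decide_eq_true_eq]
  · rw [all_iff hinv.1]
    refine forall_congr' fun a => forall_congr' fun ha => ?_
    rw [all_iff hinv.1]
    refine forall_congr' fun b => forall_congr' fun hb => ?_
    rw [all_iff hinv.1]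
    refine forall_congr' fun c => forall_congr' fun hc => ?_
    rw [all_iff hinv.1]
    refine forall_congr' fun d => forall_congr' fun hd => ?_
    rw [Bool.not_eq_true', ← Bool.not_eq_true]
    apply not_congr
    unfold pat
    simp only [Bool.and_eq_true, Bool.not_eq_true', ← Bool.not_eq_true, qadjI_iff adj hinv ha hb,
      qadjI_iff adj hinv hb hc, qadjI_iff adj hinv hc hd, qadjI_iff adj hinv ha hc,
      qadjI_iff adj hinv hb hd, qadjI_iff adj hinv ha hd, and_assoc]

end Pool.Agent.J4H52.PF
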