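import Pool.Agent.J4H62.PF.Jobs

/-!
# Project PF, job T: twins in `P₄`-free graphs
-/

set_option autoImplicit false

namespace Pool.Agent.J4H52.PF

open Pool.Agent.J4H62.PF

/-- `C` has a partition into two nonempty parts with no edges or all edges between them -/
def Spl (R : ℕ → ℕ → Prop) (C : Finset ℕ) : Prop := ∃ p : ℕ → Prop, (∃ a ∈ C, p a) ∧
  (∃ b ∈ C, ¬ p b) ∧ ((∀ a ∈ C, ∀ b ∈ C, p a → ¬ p b → ¬ R a b) ∨
    ∀ a ∈ C, ∀ b ∈ C, p a → ¬ p b → R a b)

/-- no induced path on four vertices -/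
def Fr (R : ℕ → ℕ → Prop) (C : Finset ℕ) : Prop :=
  ∀ a ∈ C, ∀ b ∈ C, ∀ c ∈ C, ∀ d ∈ C, ¬ pat R a b c d

theorem step1 {R : ℕ → ℕ → Prop} (hs : ∀ a b, R a b → R b a) {C : Finset ℕ} {v : ℕ} (hv : v ∉ C)
    (hF : Fr R (insert v C)) {p : ℕ → Prop} (hb : ∃ b ∈ C, ¬ p b)
    (hno : ∀ a ∈ C, ∀ b ∈ C, p a → ¬ p b → ¬ R a b) {z₀ : ℕ} (hz : z₀ ∈ C) (hpz : p z₀)
    (hvz : ¬ R v z₀) : Spl R (insert v C) := by
  classical
  by_cases hB : ∀ w ∈ C, ¬ p w → ¬ R v w
  · refine ⟨fun a => a = v ∨ p a, ⟨v, by simp, Or.inl rfl⟩, ?_, Or.inl ?_⟩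
    · obtain ⟨b, hb1, hb2⟩ := hb
      refine ⟨b, Finset.mem_insert_of_mem hb1, ?_⟩
      rintro (h | h)
      · subst h; exact hv hb1
      · exact hb2 h
    · intro a ha b hb ha' hb'
      have hbv : b ≠ v := fun h => hb' (Or.inl h)
      have hbp : ¬ p b := fun h => hb' (Or.inr h)
      have hbC : b ∈ C := (Finset.mem_insert.1 hb).resolve_left hbv
      rcases Finset.mem_insert.1 ha with rfl | haC
      · exact hB b hbC hbp
      · rcases ha' with rfl | hap
        · exact absurd haC hv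
        · exact hno a haC b hbC hap hbp
  · push Not at hB
    obtain ⟨w, hw, hpw, hvw⟩ := hB
    refine ⟨fun a => a ≠ v ∧ p a ∧ ¬ R v a, ⟨z₀, Finset.mem_insert_of_mem hz, ?_, hpz, hvz⟩,
      ⟨v, by simp, fun h => h.1 rfl⟩, Or.inl ?_⟩
    · rintro rfl; exact hv hz
    · rintro a ha b hb ⟨hav, hap, hva⟩ hb' hab
      have haC : a ∈ C := (Finset.mem_insert.1 ha).resolve_left hav
      by_cases hbv : b = v
      · subst hbv; exact hva (hs _ _ hab)
      have hbC : b ∈ C := (Finset.mem_insert.1 hb).resolve_left hbv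
      by_cases hpb : p b
      · have hvb : R v b := by
          by_contra h
          exact hb' ⟨hbv, hpb, h⟩
        refine hF w (Finset.mem_insert_of_mem hw) v (by simp) b (Finset.mem_insert_of_mem hbC)
          a (Finset.mem_insert_of_mem haC) ⟨hs _ _ hvw, hvb, hs _ _ hab, ?_, hva, ?_⟩
        · exact fun h => hno b hbC w hw hpb hpw (hs _ _ h)
        · exact fun h => hno a haC w hw hap hpw (hs _ _ h)
      · exact hno a haC b hbC hap hpb hab

theorem step2 {R : ℕ → ℕ → Prop} (hs : ∀ a b, R a b → R b a) {C : Finset ℕ} {v : ℕ} (hv : v ∉ C)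
    (hF : Fr R (insert v C)) {p : ℕ → Prop} (ha : ∃ a ∈ C, p a) (hb : ∃ b ∈ C, ¬ p b)
    (hno : ∀ a ∈ C, ∀ b ∈ C, p a → ¬ p b → ¬ R a b) : Spl R (insert v C) := by
  classical
  by_cases h : ∀ w ∈ C, R v w
  · refine ⟨fun a => a = v, ⟨v, by simp, rfl⟩, ?_, Or.inr ?_⟩
    · obtain ⟨a, ha, _⟩ := ha
      exact ⟨a, Finset.mem_insert_of_mem ha, fun h => hv (h ▸ ha)⟩
    · rintro a _ b hb rfl hb'
      exact h b ((Finset.mem_insert.1 hb).resolve_left hb')
  · push Not at h
    obtain ⟨z, hz, hvz⟩ := h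
    by_cases hpz : p z
    · exact step1 hs hv hF hb hno hz hpz hvz
    · refine step1 (p := fun a => ¬ p a) hs hv hF ?_ ?_ hz hpz hvz
      · obtain ⟨a, ha, hpa⟩ := ha
        exact ⟨a, ha, fun h => h hpa⟩
      · intro a ha b hb hpa hpb hab
        exact hno b hb a ha (not_not.1 hpb) hpa (hs _ _ hab)

/-- the complement -/
def Co (R : ℕ → ℕ → Prop) (a b : ℕ) : Prop := a ≠ b ∧ ¬ R a b

theorem fr_co {R : ℕ → ℕ → Prop} (hs : ∀ a b, R a b → R b a) {C : Finset ℕ} (h : Fr R C) :
    Fr (Co R) C := by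
  rintro a ha b hb c hc d hd ⟨hab, hbc, hcd, hac, hbd, had⟩
  have hne1 : a ≠ c := by
    rintro rfl; exact had hcd
  have h1 : R a c := by
    by_contra h; exact hac ⟨hne1, h⟩
  have hne2 : b ≠ d := by
    rintro rfl; exact had hab
  have h2 : R b d := by
    by_contra h; exact hbd ⟨hne2, h⟩
  have hne3 : a ≠ d := by
    rintro rfl
    exact hac ⟨hne1, fun h => hcd.2 (hs _ _ h)⟩
  have h3 : R a d := by
    by_contra h; exact had ⟨hne3, h⟩
  exact h b hb d hd a ha c hc ⟨h2, hs _ _ h3, h1, fun h => hab.2 (hs _ _ h),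
    fun h => hcd.2 (hs _ _ h), hbc.2⟩

theorem spl_of {R : ℕ → ℕ → Prop} (hs : ∀ a b, R a b → R b a) :
    ∀ (n : ℕ) (C : Finset ℕ), C.card = n → 2 ≤ n → Fr R C → Spl R C := by
  classical
  intro n
  induction n with
  | zero => intro C _ h; omega
  | succ n ih =>
    intro C hC h2 hF
    obtain ⟨v, hvC⟩ : C.Nonempty := by
      rw [← Finset.card_pos]; omega
    have hcard : (C.erase v).card = n := by rw [Finset.card_erase_of_mem hvC, hC]; rfl
    have hins : insert v (C.erase v) = C := Finset.insert_erase hvC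
    have hve : v ∉ C.erase v := Finset.notMem_erase v C
    rcases Nat.lt_or_ge n 2 with hn | hn
    · -- two vertices
      have hn1 : n = 1 := by omega
      subst hn1
      obtain ⟨u, hu⟩ := Finset.card_eq_one.1 hcard
      have hCu : C = {v, u} := by rw [← hins, hu]
      have huv : u ≠ v := by
        rintro rfl
        rw [hu] at hve
        exact hve (by simp)
      refine ⟨fun a => a = v, ⟨v, hvC, rfl⟩, ⟨u, by rw [hCu]; simp, huv⟩, ?_⟩
      by_cases hR : R v u
      · right
        rintro a _ b hb rfl hb'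
        have : b = u := by
          rw [hCu] at hb
          simp only [Finset.mem_insert, Finset.mem_singleton] at hb
          exact hb.resolve_left hb'
        rw [this]; exact hR
      · left
        rintro a _ b hb rfl hb'
        have : b = u := by
          rw [hCu] at hb
          simp only [Finset.mem_insert, Finset.mem_singleton] at hb
          exact hb.resolve_left hb'
        rw [this]; exact hR
    · have hF' : Fr R (C.erase v) := fun a ha b hb c hc d hd =>
        hF a (Finset.mem_of_mem_erase ha) b (Finset.mem_of_mem_erase hb) c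
          (Finset.mem_of_mem_erase hc) d (Finset.mem_of_mem_erase hd)
      obtain ⟨p, ha, hb, h⟩ := ih (C.erase v) hcard hn hF'
      rcases h with h | h
      · have := step2 hs hve (by rw [hins]; exact hF) ha hb h
        rwa [hins] at this
      · have hs' : ∀ a b, Co R a b → Co R b a := fun a b h =>
          ⟨h.1.symm, fun h' => h.2 (hs _ _ h')⟩
        have hF2 : Fr (Co R) (insert v (C.erase v)) := by
          rw [hins]; exact fr_co hs hF
        have := step2 (R := Co R) hs' hve hF2 ha hb (by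
          intro a ha b hb hpa hpb hab
          exact hab.2 (h a ha b hb hpa hpb))
        rw [hins] at this
        obtain ⟨q, hqa, hqb, hq⟩ := this
        refine ⟨q, hqa, hqb, ?_⟩
        rcases hq with hq | hq
        · right
          intro a ha b hb hqa hqb
          by_contra hab
          exact hq a ha b hb hqa hqb ⟨fun h => hqb (h ▸ hqa), hab⟩
        · left
          intro a ha b hb hqa hqb
          exact (hq a ha b hb hqa hqb).2

theorem twins {R : ℕ → ℕ → Prop} (hs : ∀ a b, R a b → R b a) :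
    ∀ (n : ℕ) (C : Finset ℕ), C.card = n → 2 ≤ n → Fr R C →
      ∃ u ∈ C, ∃ v ∈ C, u ≠ v ∧ ∀ w ∈ C, w ≠ u → w ≠ v → (R w u ↔ R w v) := by
  classical
  intro n
  induction n using Nat.strong_induction_on with
  | _ n ih =>
    intro C hC h2 hF
    obtain ⟨p, ⟨a₀, ha₀, hpa₀⟩, ⟨b₀, hb₀, hpb₀⟩, h⟩ := spl_of hs n C hC h2 hF
    -- a part with two vertices has twins, which are twins in `C`
    have key : ∀ q : ℕ → Prop, (∃ b ∈ C, ¬ q b) → 2 ≤ (C.filter q).card →
        ((∀ a ∈ C, ∀ b ∈ C, q a → ¬ q b → ¬ R b a) ∨ ∀ a ∈ C, ∀ b ∈ C, q a → ¬ q b → R b a) →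
        ∃ u ∈ C, ∃ v ∈ C, u ≠ v ∧ ∀ w ∈ C, w ≠ u → w ≠ v → (R w u ↔ R w v) := by
      rintro q ⟨b, hb, hqb⟩ hcard hq
      have hlt : (C.filter q).card < n := by
        rw [← hC]
        apply Finset.card_lt_card
        rw [Finset.filter_ssubset]
        exact ⟨b, hb, hqb⟩
      obtain ⟨u, hu, v, hv, huv, ht⟩ := ih _ hlt (C.filter q) rfl hcard
        (fun a ha b hb c hc d hd => hF a (Finset.mem_of_mem_filter a ha) b
          (Finset.mem_of_mem_filter b hb) c (Finset.mem_of_mem_filter c hc) d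
          (Finset.mem_of_mem_filter d hd))
      rw [Finset.mem_filter] at hu hv
      refine ⟨u, hu.1, v, hv.1, huv, fun w hw hwu hwv => ?_⟩
      by_cases hqw : q w
      · exact ht w (Finset.mem_filter.2 ⟨hw, hqw⟩) hwu hwv
      · rcases hq with hq | hq
        · exact iff_of_false (hq u hu.1 w hw hu.2 hqw) (hq v hv.1 w hw hv.2 hqw)
        · exact iff_of_true (hq u hu.1 w hw hu.2 hqw) (hq v hv.1 w hw hv.2 hqw)
    rcases Nat.lt_or_ge (C.filter p).card 2 with h1 | h1
    · rcases Nat.lt_or_ge (C.filter fun a => ¬ p a).card 2 with h3 | h3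
      · -- two vertices
        have e1 : ∀ w ∈ C, p w → w = a₀ := by
          intro w hw hpw
          have := Finset.card_le_one.1 (Nat.lt_succ_iff.1 h1) w (Finset.mem_filter.2 ⟨hw, hpw⟩) a₀
            (Finset.mem_filter.2 ⟨ha₀, hpa₀⟩)
          exact this
        have e2 : ∀ w ∈ C, ¬ p w → w = b₀ := by
          intro w hw hpw
          have := Finset.card_le_one.1 (Nat.lt_succ_iff.1 h3) w (Finset.mem_filter.2 ⟨hw, hpw⟩) b₀
            (Finset.mem_filter.2 ⟨hb₀, hpb₀⟩)
          exact this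
        refine ⟨a₀, ha₀, b₀, hb₀, fun h => hpb₀ (h ▸ hpa₀), fun w hw h4 h5 => ?_⟩
        by_cases hpw : p w
        · exact absurd (e1 w hw hpw) h4
        · exact absurd (e2 w hw hpw) h5
      · refine key (fun a => ¬ p a) ⟨a₀, ha₀, fun h => h hpa₀⟩ (le_of_le_of_eq h3 (by congr)) ?_
        rcases h with h | h
        · left
          intro a ha b hb hqa hqb
          exact h b hb a ha (not_not.1 hqb) hqa
        · right
          intro a ha b hb hqa hqb
          exact h b hb a ha (not_not.1 hqb) hqa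
    · refine key p ⟨b₀, hb₀, hpb₀⟩ h1 ?_
      rcases h with h | h
      · left
        intro a ha b hb hqa hqb hab
        exact h a ha b hb hqa hqb (hs _ _ hab)
      · right
        intro a ha b hb hqa hqb
        exact hs _ _ (h a ha b hb hqa hqb)

theorem t_T : S_T := by
  intro R hs _ C h2 hF
  exact twins hs C.card C rfl h2 hF

end Pool.Agent.J4H52.PF
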